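import Pool.Agent.Helper20.MB.St.Stubs2
import Pool.Agent.Helper20.HPF.R1

/-!
# Project MB, piece 7e: naturality of the curvature under the change of gauge

The statements used (7a, 7b, 7d, 7f) are hypotheses of the theorem.
-/

open Filter Metric Module Set
open scoped Topology ContDiff RealInnerProductSpace Manifold

set_option maxSynthPendingDepth 3

namespace Pool.Agent.Helper41.MB
open Pool.Agent.Helper20.PC Pool.Agent.Helper20.HP Pool.Agent.Helper20.M8 Pool.Agent.Helper20.MB

section
variable {V Y : Type*} [NormedAddCommGroup V] [NormedSpace ℝ V] [FiniteDimensional ℝ V]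
  [NormedAddCommGroup Y] [NormedSpace ℝ Y] [FiniteDimensional ℝ Y] {D : BD V Y} {x : V} {y : Y}

theorem til_num (H : D.Good x) {η : ℝ} (hy : y ≠ 0)
    (hpos : ∀ a, a ≠ 0 → 0 < fibL D.k D.S η (x, y) a a) (u v : V × Y) :
    num ((D.til x).G η) (x, y) u v
      = num (D.G η) (x, y) (u.1, u.2 - D.A x u.1 y) (v.1, v.2 - D.A x v.1 y) := by
  have g1 := Spec.gau_contDiff D.A x
  have g2 := Spec.gau_self D.A x
  have g3 := Spec.gau_fderiv D.A x
  have hcd : ContDiff ℝ 3 (gmap D.A x) := by
    unfold gmap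
    have hg : ContDiff ℝ 3 (fun z : V × Y => gau D.A x z.1) :=
      (contDiff_infty.1 g1 3).comp contDiff_fst
    exact contDiff_fst.prodMk (hg.clm_apply contDiff_snd)
  have hval : gmap D.A x (x, y) = (x, y) := by
    simp only [gmap, g2]
    rfl
  have hder : ∀ u : V × Y, fderiv ℝ (gmap D.A x) (x, y) u = (u.1, u.2 - D.A x u.1 y) := by
    intro u
    have hg : HasFDerivAt (gau D.A x) (fderiv ℝ (gau D.A x) x) x :=
      ((g1.differentiable (by simp)) x).hasFDerivAt
    have hg' : HasFDerivAt (fun z : V × Y => gau D.A x z.1)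
        ((fderiv ℝ (gau D.A x) x).comp (ContinuousLinearMap.fst ℝ V Y)) (x, y) :=
      HasFDerivAt.comp (x, y) (f := Prod.fst) (g := gau D.A x) hg hasFDerivAt_fst
    have h1 : HasFDerivAt (gmap D.A x) _ (x, y) :=
      (hasFDerivAt_fst (𝕜 := ℝ) (E := V) (F := Y) (p := (x, y))).prodMk
        (hg'.clm_apply (hasFDerivAt_snd (𝕜 := ℝ) (E := V) (F := Y) (p := (x, y))))
    rw [h1.fderiv]
    refine Prod.ext rfl ?_
    simp [g2, g3, sub_eq_add_neg]
  have hsurj : Function.Surjective (fderiv ℝ (gmap D.A x) (x, y)) := by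
    rintro ⟨a, b⟩
    refine ⟨(a, b + D.A x a y), ?_⟩
    rw [hder]
    simp
  have hk : (D.til x).k x = D.k x := by
    ext p q
    rw [BD.til_k, g2]
    rfl
  have hS : (D.til x).S x = D.S x := by
    ext a b c d
    rw [BD.til_S, g2]
    rfl
  have hfib : ∀ a, a ≠ 0 → 0 < fibL (D.til x).k (D.til x).S η (x, y) a a := by
    intro a ha
    have h := hpos a ha
    unfold fibL at h ⊢
    simp only [hk, hS]
    exact h
  have hG' : MetAt (D.G η) (x, y) := Spec.metAt_G H hy hpos
  have hG : MetAt ((D.til x).G η) (x, y) := Spec.metAt_G (Spec.til_good H) hy hfib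
  have h := num_pullback (G := (D.til x).G η) (G' := D.G η) (φ := gmap D.A x) (z := (x, y))
    hcd.contDiffAt (by rw [hval]; exact hG') hG hsurj (Spec.til_G H η y) u v
  rw [h, hval, hder, hder]

end

end Pool.Agent.Helper41.MB
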